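import Pool.Agent.H90.CS.Targets
import Pool.Agent.H90.LCL.HP

/-!
# Board `lcs_modules`, row `HPS`: the average of the local factor
-/

set_option autoImplicit false

namespace Pool.Agent.H41.LCS

open Finset Pool.Agent.H90.LC Pool.Agent.H90.LCL Pool.Agent.H90.CS

/-- one factor -/
theorem fac_sq_le {p : ℕ} (h : 3 ≤ p) : ((1 - 2 / (p : ℝ))⁻¹) ^ 2 ≤ 1 + 24 / (p : ℝ) := by
  have h3 : (3 : ℝ) ≤ p := by exact_mod_cast h
  have hp0 : (0 : ℝ) < p := by linarith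
  have hp2 : (0 : ℝ) < (p : ℝ) - 2 := by linarith
  have e : (1 - 2 / (p : ℝ))⁻¹ = (p : ℝ) / ((p : ℝ) - 2) := by
    field_simp
  rw [e, div_pow, div_le_iff₀ (by positivity)]
  have e2 : (1 + 24 / (p : ℝ)) * ((p : ℝ) - 2) ^ 2 =
      ((p : ℝ) + 24) * ((p : ℝ) - 2) ^ 2 / p := by
    field_simp
  rw [e2, le_div_iff₀ hp0]
  nlinarith [mul_nonneg (show (0 : ℝ) ≤ 5 * (p : ℝ) - 8 by linarith)
    (show (0 : ℝ) ≤ (p : ℝ) - 3 by linarith), sq_nonneg ((p : ℝ) - 3)]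

/-- the primes used -/
def PX (X : ℕ) : Finset ℕ := (Icc 3 X).filter Nat.Prime

theorem hp_sq_le (d : ℕ) : hp d ^ 2 ≤ ∑ T ∈ (F3 d).powerset, ∏ p ∈ T, (24 / (p : ℝ)) := by
  rw [hp_eq, ← Finset.prod_pow, ← Finset.prod_one_add]
  refine Finset.prod_le_prod (fun p _ => by positivity) fun p hp => ?_
  exact fac_sq_le (three_le_of_mod (mem_F3.1 hp).2)

theorem F3_sub {d X : ℕ} (hd : d ≤ X) : F3 d ⊆ PX X := by
  intro p hp
  obtain ⟨⟨h1, h2, h3⟩, h4⟩ := mem_F3.1 hp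
  unfold PX
  rw [mem_filter, mem_Icc]
  exact ⟨⟨three_le_of_mod h4, (Nat.le_of_dvd (Nat.pos_of_ne_zero h3) h2).trans hd⟩, h1⟩

theorem card_div (X m : ℕ) : (((Icc 1 X).filter (fun d => m ∣ d)).card : ℝ) ≤ X / m := by
  have h : (Icc 1 X).filter (fun d => m ∣ d) = (Ioc 0 X).filter (fun d => m ∣ d) := by
    ext d
    simp only [mem_filter, mem_Icc, mem_Ioc]
    constructor <;> rintro ⟨⟨h1, h2⟩, h3⟩ <;> exact ⟨⟨by omega, h2⟩, h3⟩
  rw [h, Nat.Ioc_filter_dvd_card_eq_div]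
  exact Nat.cast_div_le

theorem sum_inv_sq (X : ℕ) : ∑ p ∈ PX X, 1 / (p : ℝ) ^ 2 ≤ 2 := by
  have h1 : ∑ p ∈ PX X, 1 / (p : ℝ) ^ 2 ≤ ∑ p ∈ Icc 3 X, 1 / (p : ℝ) ^ 2 :=
    Finset.sum_le_sum_of_subset_of_nonneg (filter_subset _ _) fun _ _ _ => by positivity
  refine h1.trans ?_
  have key : ∀ N : ℕ, ∑ p ∈ Icc 3 (N + 3), 1 / (p : ℝ) ^ 2 ≤ 1 - 1 / ((N : ℝ) + 3) := by
    intro N
    induction N with
    | zero => norm_num
    | succ N ih =>
      rw [show N + 1 + 3 = (N + 3) + 1 by ring, Finset.sum_Icc_succ_top (by omega)]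
      have hN : (0 : ℝ) ≤ N := Nat.cast_nonneg N
      have h2 : 1 / (((N + 3 + 1 : ℕ) : ℝ)) ^ 2 ≤ 1 / ((N : ℝ) + 3) - 1 / ((N : ℝ) + 1 + 3) := by
        push_cast
        rw [div_sub_div _ _ (by positivity) (by positivity), div_le_div_iff₀ (by positivity)
          (by positivity)]
        nlinarith
      push_cast at h2 ih ⊢
      linarith
  rcases Nat.lt_or_ge X 3 with hX | hX
  · rw [Finset.Icc_eq_empty (by omega)]
    simp
  · obtain ⟨N, rfl⟩ : ∃ N, X = N + 3 := ⟨X - 3, by omega⟩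
    have := key N
    have h3 : (0 : ℝ) ≤ 1 / ((N : ℝ) + 3) := by positivity
    linarith

/-- the mean square of the local factor -/
theorem sum_hp_sq (X : ℕ) : ∑ d ∈ Icc 1 X, hp d ^ 2 ≤ Real.exp 48 * X := by
  classical
  have h1 : ∑ d ∈ Icc 1 X, hp d ^ 2 ≤ ∑ d ∈ Icc 1 X, ∑ T ∈ (PX X).powerset,
      if (∏ p ∈ T, p) ∣ d then ∏ p ∈ T, (24 / (p : ℝ)) else 0 := by
    refine Finset.sum_le_sum fun d hd => (hp_sq_le d).trans ?_
    have hdX := (mem_Icc.1 hd).2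
    have hsub : (F3 d).powerset ⊆ (PX X).powerset := Finset.powerset_mono.2 (F3_sub hdX)
    calc ∑ T ∈ (F3 d).powerset, ∏ p ∈ T, (24 / (p : ℝ))
        = ∑ T ∈ (F3 d).powerset,
          if (∏ p ∈ T, p) ∣ d then ∏ p ∈ T, (24 / (p : ℝ)) else 0 := by
          refine Finset.sum_congr rfl fun T hT => ?_
          rw [if_pos]
          have hT' := Finset.mem_powerset.1 hT
          refine Finset.prod_primes_dvd d (fun p hp => ?_) fun p hp => ?_
          · exact (mem_F3.1 (hT' hp)).1.1.prime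
          · exact (mem_F3.1 (hT' hp)).1.2.1
      _ ≤ _ := Finset.sum_le_sum_of_subset_of_nonneg hsub fun T _ _ => by
          split_ifs
          · exact Finset.prod_nonneg fun p _ => by positivity
          · exact le_refl _
  refine h1.trans ?_
  rw [Finset.sum_comm]
  have h2 : ∀ T ∈ (PX X).powerset, ∑ d ∈ Icc 1 X,
      (if (∏ p ∈ T, p) ∣ d then ∏ p ∈ T, (24 / (p : ℝ)) else 0) ≤
      (X : ℝ) * ∏ p ∈ T, (24 * (1 / (p : ℝ) ^ 2)) := by
    intro T _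
    rw [← Finset.sum_filter, Finset.sum_const, nsmul_eq_mul]
    have h3 := card_div X (∏ p ∈ T, p)
    have h4 : (0 : ℝ) ≤ ∏ p ∈ T, (24 / (p : ℝ)) := Finset.prod_nonneg fun p _ => by positivity
    refine (mul_le_mul_of_nonneg_right h3 h4).trans (le_of_eq ?_)
    rw [Nat.cast_prod, div_mul_eq_mul_div, mul_div_assoc, ← Finset.prod_div_distrib]
    congr 1
    refine Finset.prod_congr rfl fun p _ => ?_
    rw [div_div, sq, mul_one_div]
  refine (Finset.sum_le_sum h2).trans ?_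
  rw [← Finset.mul_sum, ← Finset.prod_one_add, mul_comm]
  refine mul_le_mul_of_nonneg_right ?_ (Nat.cast_nonneg X)
  calc ∏ p ∈ PX X, (1 + 24 * (1 / (p : ℝ) ^ 2))
      ≤ ∏ p ∈ PX X, Real.exp (24 * (1 / (p : ℝ) ^ 2)) := by
        refine Finset.prod_le_prod (fun p _ => by positivity) fun p _ => ?_
        rw [add_comm]
        exact Real.add_one_le_exp _
    _ = Real.exp (24 * ∑ p ∈ PX X, (1 / (p : ℝ) ^ 2)) := by
        rw [← Real.exp_sum, Finset.mul_sum]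
    _ ≤ Real.exp 48 := by
        apply Real.exp_le_exp.2
        have := sum_inv_sq X
        linarith

/-- The average of the local factor. -/
theorem pf_HPS : T_HPS := by
  refine ⟨2 * Real.exp 48, by positivity, fun T => ?_⟩
  have h0 : ∀ t ∈ Icc 1 T, ∑ s ∈ Icc 1 (t - 1), hp (t ^ 2 - s ^ 2) ≤
      (Real.exp 48 * T + Real.exp 48 * (2 * T)) / 2 := by
    intro t ht
    obtain ⟨ht1, htT⟩ := mem_Icc.1 ht
    have h1 : ∑ s ∈ Icc 1 (t - 1), hp (t ^ 2 - s ^ 2) ≤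
        ∑ s ∈ Icc 1 (t - 1), (hp (t - s) ^ 2 + hp (t + s) ^ 2) / 2 := by
      refine Finset.sum_le_sum fun s hs => ?_
      obtain ⟨hs1, hs2⟩ := mem_Icc.1 hs
      have e : t ^ 2 - s ^ 2 = (t - s) * (t + s) := by
        rw [Nat.sq_sub_sq, mul_comm]
      rw [e]
      refine (hp_mul (by omega) (by omega)).trans ?_
      nlinarith [sq_nonneg (hp (t - s) - hp (t + s))]
    have h2 : ∑ s ∈ Icc 1 (t - 1), hp (t - s) ^ 2 ≤ ∑ d ∈ Icc 1 T, hp d ^ 2 := by
      have h3 : ∑ s ∈ Icc 1 (t - 1), hp (t - s) ^ 2 =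
          ∑ d ∈ (Icc 1 (t - 1)).image (fun s => t - s), hp d ^ 2 := by
        rw [Finset.sum_image]
        intro a ha b hb hab
        have ha' := mem_Icc.1 (Finset.mem_coe.1 ha)
        have hb' := mem_Icc.1 (Finset.mem_coe.1 hb)
        have hab' : t - a = t - b := hab
        omega
      rw [h3]
      refine Finset.sum_le_sum_of_subset_of_nonneg ?_ fun _ _ _ => by positivity
      intro d hd
      obtain ⟨s, hs, rfl⟩ := Finset.mem_image.1 hd
      have hs' := mem_Icc.1 hs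
      rw [mem_Icc]
      omega
    have h4 : ∑ s ∈ Icc 1 (t - 1), hp (t + s) ^ 2 ≤ ∑ d ∈ Icc 1 (2 * T), hp d ^ 2 := by
      have h3 : ∑ s ∈ Icc 1 (t - 1), hp (t + s) ^ 2 =
          ∑ d ∈ (Icc 1 (t - 1)).image (fun s => t + s), hp d ^ 2 := by
        rw [Finset.sum_image]
        intro a _ b _ hab
        have hab' : t + a = t + b := hab
        omega
      rw [h3]
      refine Finset.sum_le_sum_of_subset_of_nonneg ?_ fun _ _ _ => by positivity
      intro d hd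
      obtain ⟨s, hs, rfl⟩ := Finset.mem_image.1 hd
      have hs' := mem_Icc.1 hs
      rw [mem_Icc]
      omega
    have h5 := sum_hp_sq T
    have h6 := sum_hp_sq (2 * T)
    push_cast at h6
    rw [← Finset.sum_div, Finset.sum_add_distrib] at h1
    linarith
  calc ∑ t ∈ Icc 1 T, ∑ s ∈ Icc 1 (t - 1), hp (t ^ 2 - s ^ 2)
      ≤ ∑ _t ∈ Icc 1 T, (Real.exp 48 * T + Real.exp 48 * (2 * T)) / 2 := Finset.sum_le_sum h0
    _ = T * ((Real.exp 48 * T + Real.exp 48 * (2 * T)) / 2) := by simp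
    _ ≤ 2 * Real.exp 48 * (T : ℝ) ^ 2 := by
        have : 0 ≤ Real.exp 48 * (T : ℝ) ^ 2 := by positivity
        nlinarith

end Pool.Agent.H41.LCS
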